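import Pool.Agent.H68.ICU.Main

/-!
# MP_b87388_al

The difference between the global dimension of the category of coefficient systems of a finite group
`G` and the global dimension of the incidence algebra of `Sub_G/G` can be arbitrarily large, over
every field: for all `m` and `M > 0` there are a finite group `G` of order coprime to `M` and a
number `a` such that over every field `𝕜` the incidence algebra over `𝕜` of the poset `Sub_G/G` of
conjugacy classes of subgroups has global dimension at most `a`, and the category of `𝕜`-linear
coefficient systems has global dimension at least `a + m`.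

The groups are products of groups `𝔽_{p^n} ⋊ C`, where `n` is a prime `≥ max(5, p^2)` and `C` is the
subgroup of order `(p^n - 1)/(p - 1)` of the multiplicative group; for one such group the first
global dimension is at most `n - 2` and the second at least `n`.

The definitions `gldim`, `SubCl`, `OrbitCat`, `Coef` are in `Pool/Agent/H68/IC/Defs.lean`.
-/

open CategoryTheory H68IC H68ICG H68ICU

namespace Pool.Agent.Results.MP_b87388_al.AllFields

/-- Q1: the two global dimensions can differ by any amount, over all fields. -/
theorem result (m M : ℕ) (hM : 0 < M) :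
    ∃ (G : Type) (_ : Group G) (_ : Finite G) (a : ℕ), M.Coprime (Nat.card G) ∧
      ∀ (𝕜 : Type) [Field 𝕜],
        gldim (ModuleCat.{0} (IncidenceAlgebra 𝕜 (SubCl G))) ≤ ((a : ℕ) : WithBot ℕ∞) ∧
        ((a + m : ℕ) : WithBot ℕ∞) ≤ gldim (Coef 𝕜 G) := by
  obtain ⟨G, _, _, a, h0, h1, h2⟩ := exists_gap M hM m
  refine ⟨G, inferInstance, inferInstance, a + 1, h0, fun 𝕜 _ => ⟨?_, ?_⟩⟩
  · have : Fintype (SubCl G) := Fintype.ofFinite _
    exact gldim_ia_le' h1
  · refine le_trans ?_ (h2.ge 𝕜)
    have h3 : a + 1 + m ≤ a + 1 + 2 * (m + 1) := by omega
    exact_mod_cast h3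

end Pool.Agent.Results.MP_b87388_al.AllFields
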